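import Pool.Agent.W345.VO.Stm

/-!
# VO-SIM: simplicity
-/
set_option autoImplicit false

namespace Pool.Agent.W202.VO.Sim

open MvPolynomial Pool.Agent.W345.VO

theorem hOp_zero_apply (v : VV) (k : ℤ) : hOp 0 v k = (2 * (k : ℂ)) • v k := by
  have h : (Finsupp.lapply k).comp (hOp 0) = (2 * (k : ℂ)) • (Finsupp.lapply k : VV →ₗ[ℂ] PP) := by
    apply ext_single
    intro j p
    rw [LinearMap.comp_apply, hOp_zero, LinearMap.smul_apply, Finsupp.lapply_apply,
      Finsupp.lapply_apply]
    by_cases hjk : j = k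
    · subst hjk
      rw [Finsupp.single_eq_same, Finsupp.single_eq_same]
    · rw [Finsupp.single_eq_of_ne (Ne.symm hjk), Finsupp.single_eq_of_ne (Ne.symm hjk), smul_zero]
  exact LinearMap.congr_fun h v

theorem hOp_pos_apply (l : ℕ) (v : VV) (k : ℤ) :
    hOp ((l : ℤ) + 1) v k = (2 * ((l : ℂ) + 1)) • pderiv l (v k) := by
  have h : (Finsupp.lapply k).comp (hOp ((l : ℤ) + 1))
      = (2 * ((l : ℂ) + 1)) • ((pderiv l).toLinearMap.comp (Finsupp.lapply k : VV →ₗ[ℂ] PP)) := by
    apply ext_single
    intro j p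
    rw [LinearMap.comp_apply, hOp_pos, LinearMap.smul_apply, LinearMap.comp_apply,
      Finsupp.lapply_apply, Finsupp.lapply_apply]
    by_cases hjk : j = k
    · subst hjk
      rw [Finsupp.single_eq_same, Finsupp.single_eq_same]
      rfl
    · rw [Finsupp.single_eq_of_ne (Ne.symm hjk), Finsupp.single_eq_of_ne (Ne.symm hjk), map_zero,
        smul_zero]
  exact LinearMap.congr_fun h v

theorem deg_pderiv (l n : ℕ) (p : PP) (hp : p.totalDegree ≤ n + 1) :
    (pderiv l p).totalDegree ≤ n := by
  unfold totalDegree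
  apply Finset.sup_le
  intro m hm
  rw [mem_support_iff, coeff_pderiv] at hm
  have h1 : coeff (m + Finsupp.single l 1) p ≠ 0 := left_ne_zero_of_mul hm
  have h2 := le_totalDegree (mem_support_iff.2 h1)
  rw [Finsupp.sum_add_index' (by simp) (by intros; rfl)] at h2
  rw [Finsupp.sum_single_index rfl] at h2
  omega

theorem exists_vac (N : Submodule ℂ VV) (hN : ∀ (m : ℤ), ∀ v ∈ N, hOp m v ∈ N) : ∀ (n : ℕ),
    ∀ v ∈ N, v ≠ 0 → (∀ k, (v k).totalDegree ≤ n) → ∃ w ∈ N, w ≠ 0 ∧ ∀ m : ℤ, 0 < m → hOp m w = 0 := by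
  intro n
  induction n with
  | zero =>
    intro v hv hv0 hd
    refine ⟨v, hv, hv0, fun m hm => ?_⟩
    obtain ⟨l, rfl⟩ : ∃ l : ℕ, m = (l : ℤ) + 1 := ⟨(m - 1).toNat, by omega⟩
    apply Finsupp.ext
    intro k
    rw [hOp_pos_apply]
    have h1 := totalDegree_eq_zero_iff_eq_C.1 (Nat.le_zero.1 (hd k))
    rw [h1, pderiv_C, smul_zero]
    rfl
  | succ n ih =>
    intro v hv hv0 hd
    by_cases hall : ∀ m : ℤ, 0 < m → hOp m v = 0
    · exact ⟨v, hv, hv0, hall⟩
    · push Not at hall
      obtain ⟨m, hm, hne⟩ := hall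
      obtain ⟨l, rfl⟩ : ∃ l : ℕ, m = (l : ℤ) + 1 := ⟨(m - 1).toNat, by omega⟩
      refine ih _ (hN _ v hv) hne (fun k => ?_)
      rw [hOp_pos_apply]
      exact (totalDegree_smul_le _ _).trans (deg_pderiv l n _ (hd k))

theorem span_const {v : VV} (hv : v ∈ Submodule.span ℂ (Set.range ee)) (k : ℤ) :
    ∃ c : ℂ, v k = C c := by
  induction hv using Submodule.span_induction with
  | mem x hx =>
    obtain ⟨j, rfl⟩ := hx
    by_cases hjk : j = k
    · subst hjk
      exact ⟨1, by rw [ee, Finsupp.single_eq_same, C_1]⟩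
    · exact ⟨0, by rw [ee, Finsupp.single_eq_of_ne (Ne.symm hjk), C_0]⟩
  | zero => exact ⟨0, by rw [Finsupp.zero_apply, C_0]⟩
  | add x y _ _ hx hy =>
    obtain ⟨a, ha⟩ := hx
    obtain ⟨b, hb⟩ := hy
    exact ⟨a + b, by rw [Finsupp.add_apply, ha, hb, C_add]⟩
  | smul a x _ hx =>
    obtain ⟨b, hb⟩ := hx
    exact ⟨a * b, by rw [Finsupp.smul_apply, hb, smul_eq_C_mul, C_mul]⟩

theorem exists_ee (hB : S_BAS) (N : Submodule ℂ VV) (hN : ∀ (m : ℤ), ∀ v ∈ N, hOp m v ∈ N) :
    ∀ (n : ℕ), ∀ v ∈ N, v ≠ 0 → v ∈ Submodule.span ℂ (Set.range ee) → v.support.card = n →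
      ∃ k, ee k ∈ N := by
  intro n
  induction n using Nat.strong_induction_on with
  | _ n ih =>
    intro v hv hv0 hs hn
    obtain ⟨k0, hk0⟩ : ∃ k, v k ≠ 0 := by
      by_contra hc
      push Not at hc
      exact hv0 (Finsupp.ext hc)
    set w := hOp 0 v - (2 * (k0 : ℂ)) • v with hw
    have hwk : ∀ k, w k = (2 * ((k : ℂ) - k0)) • v k := by
      intro k
      rw [hw, Finsupp.sub_apply, hOp_zero_apply, Finsupp.smul_apply, ← sub_smul]
      congr 1
      ring
    have hwN : w ∈ N := N.sub_mem (hN 0 v hv) (N.smul_mem _ hv)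
    by_cases hw0 : w = 0
    · have h1 : v = Finsupp.single k0 (v k0) := by
        apply Finsupp.ext
        intro k
        by_cases hk : k = k0
        · subst hk
          rw [Finsupp.single_eq_same]
        · rw [Finsupp.single_eq_of_ne hk]
          have h2 := hwk k
          rw [hw0, Finsupp.zero_apply] at h2
          have h3 : (2 * ((k : ℂ) - k0)) ≠ 0 := by
            apply mul_ne_zero two_ne_zero
            rw [sub_ne_zero]
            exact_mod_cast hk
          exact (smul_eq_zero.1 h2.symm).resolve_left h3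
      obtain ⟨c, hc⟩ := span_const hs k0
      have hc0 : c ≠ 0 := by
        rintro rfl
        rw [C_0] at hc
        exact hk0 hc
      refine ⟨k0, ?_⟩
      have h4 : ee k0 = c⁻¹ • v := by
        rw [h1, hc, ee, Finsupp.smul_single, smul_eq_C_mul, ← C_mul, inv_mul_cancel₀ hc0, C_1]
      rw [h4]
      exact N.smul_mem _ hv
    · have hws : w ∈ Submodule.span ℂ (Set.range ee) := by
        refine Submodule.sub_mem _ ?_ (Submodule.smul_mem _ _ hs)
        clear hw0 hwN hwk hw hk0 hn hv0 hv
        induction hs using Submodule.span_induction with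
        | mem x hx =>
          obtain ⟨j, rfl⟩ := hx
          rw [hB.2.2.1 j]
          exact Submodule.smul_mem _ _ (Submodule.subset_span ⟨j, rfl⟩)
        | zero => rw [map_zero]; exact Submodule.zero_mem _
        | add x y _ _ hx hy => rw [map_add]; exact Submodule.add_mem _ (hx ) (hy )
        | smul a x _ hx => rw [map_smul]; exact Submodule.smul_mem _ _ (hx )
      have hcard : w.support.card < n := by
        rw [← hn]
        apply Finset.card_lt_card
        rw [Finset.ssubset_iff_of_subset]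
        · refine ⟨k0, Finsupp.mem_support_iff.2 hk0, ?_⟩
          rw [Finsupp.notMem_support_iff, hwk, sub_self, mul_zero, zero_smul]
        · intro k hk
          rw [Finsupp.mem_support_iff] at hk ⊢
          rw [hwk] at hk
          exact right_ne_zero_of_smul hk
      exact ih _ hcard w hwN hw0 hws rfl

theorem sim : S_BAS → S_FOCK → S_AL → S_SIM := by
  intro hB hF hA A hG
  have hal := hA A.toVertexAlgebra hG
  obtain ⟨hone, hE, hE', -⟩ := hG
  refine ⟨?_, fun N hN => ?_⟩
  · rw [hone, ee]
    intro h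
    exact one_ne_zero (Finsupp.single_eq_zero.1 h)
  · by_cases hbot : N = ⊥
    · exact Or.inl hbot
    · right
      have hh : ∀ (m : ℤ), ∀ v ∈ N, hOp m v ∈ N := by
        intro m v hv
        have := hN al m v hv
        rwa [hal] at this
      obtain ⟨v, hv, hv0⟩ := Submodule.exists_mem_ne_zero_of_ne_bot hbot
      obtain ⟨w, hw, hw0, hw1⟩ := exists_vac N hh (v.support.sup fun k => (v k).totalDegree) v hv hv0
        (fun k => by
          by_cases hk : v k = 0
          · rw [hk, totalDegree_zero]; exact Nat.zero_le _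
          · exact Finset.le_sup (f := fun k => (v k).totalDegree) (Finsupp.mem_support_iff.2 hk))
      obtain ⟨k, hk⟩ := exists_ee hB N hh _ w hw hw0 (hF.1 w hw1) rfl
      have hup : ∀ j, ee j ∈ N → ee (j + 1) ∈ N := by
        intro j hj
        have h1 := hN (ee 1) (-1 - 2 * j) _ hj
        rw [hE, hB.1] at h1
        have h2 : -(-1 - 2 * j) - 1 - 2 * 1 * j = 0 := by ring
        rw [h2] at h1
        simpa [sz, ss_zero, ee] using h1
      have hdown : ∀ j, ee j ∈ N → ee (j - 1) ∈ N := by
        intro j hj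
        have h1 := hN (ee (-1)) (-1 + 2 * j) _ hj
        rw [hE', hB.1] at h1
        have h2 : -(-1 + 2 * j) - 1 - 2 * (-1) * j = 0 := by ring
        rw [h2] at h1
        simpa [sz, ss_zero, ee, sub_eq_add_neg] using h1
      have h0 : ee 0 ∈ N := by
        have hall : ∀ j : ℤ, ee j ∈ N := by
          intro j
          rcases le_total k j with h | h
          · exact Int.leInduction (motive := fun j _ => ee j ∈ N) hk (fun n _ hn => hup n hn) j h
          · exact Int.leInductionDown (motive := fun j _ => ee j ∈ N) hk (fun n _ hn => hdown n hn) j h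
        exact hall 0
      rw [Submodule.eq_top_iff']
      intro a
      have := hN a (-1) _ h0
      rw [← hone, A.one_right] at this
      exact this

end Pool.Agent.W202.VO.Sim
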